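import Pool.Agent.H47.MED.Stmts

/-!
# MED, module CNF: flat triples
-/

set_option autoImplicit false

namespace Pool.MED

open Finset Pool.Agent.H98.ABCR Pool.SHA

namespace CNF31

/-! ### Coordinates -/

lemma co_abs {v : ℕ × ℕ} {i j k : Fin 3} (hij : i ≠ j) (hik : i ≠ k) (hjk : j ≠ k) (hk : k ≠ 2) :
    |(coord v i : ℝ) - coord v j| = coord v k := by
  fin_cases i <;> fin_cases j <;> fin_cases k <;> simp_all [coord]

lemma co_dvd {v : ℕ × ℕ} {i j k : Fin 3} (hij : i ≠ j) (hik : i ≠ k) (hjk : j ≠ k) (hk : k ≠ 2) :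
    (coord v k : ℤ) ∣ (coord v i : ℤ) - coord v j := by
  fin_cases i <;> fin_cases j <;> fin_cases k <;> simp_all [coord]

lemma co_cop {v : ℕ × ℕ} (hv : IsTri v) {i j : Fin 3} (hij : i ≠ j) :
    (coord v i).Coprime (coord v j) := by
  obtain ⟨_, _, h⟩ := hv
  fin_cases i <;> fin_cases j <;> first | exact absurd rfl hij |
    (simp [coord]; first | exact h | exact h.symm)

lemma co_inj {v v' : ℕ × ℕ} {i j : Fin 3} (hij : i ≠ j) (h1 : coord v i = coord v' i)
    (h2 : coord v j = coord v' j) : v = v' := by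
  obtain ⟨a, b⟩ := v
  obtain ⟨a', b'⟩ := v'
  fin_cases i <;> fin_cases j <;> simp_all [coord]

lemma co_pos {v : ℕ × ℕ} (hv : IsTri v) (i : Fin 3) : 0 < coord v i := by
  obtain ⟨h1, h2, _⟩ := hv
  fin_cases i <;> simp [coord] <;> omega

lemma co_le (v : ℕ × ℕ) (i : Fin 3) : coord v i ≤ v.1 + v.2 := by
  fin_cases i <;> simp [coord]

/-! ### Real inequalities -/

lemma sub_mul_pow_le {a b : ℝ} (hb : 0 ≤ b) (hab : b ≤ a) (n : ℕ) :
    (a - b) * a ^ n ≤ a ^ (n + 1) - b ^ (n + 1) := by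
  have h1 : b * b ^ n ≤ b * a ^ n := mul_le_mul_of_nonneg_left (pow_le_pow_left₀ hb hab n) hb
  have h2 : b ^ (n + 1) = b * b ^ n := by ring
  have h3 : (a - b) * a ^ n = a ^ (n + 1) - b * a ^ n := by ring
  rw [h2, h3]
  linarith

lemma abs_sub_mul_pow_le {a b : ℝ} (ha : 0 ≤ a) (hb : 0 ≤ b) (n : ℕ) :
    |a - b| * a ^ n ≤ |a ^ (n + 1) - b ^ (n + 1)| ∧
      |a - b| * b ^ n ≤ |a ^ (n + 1) - b ^ (n + 1)| := by
  rcases le_total b a with h | h
  · have h1 := sub_mul_pow_le hb h n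
    have h2 : |a - b| = a - b := abs_of_nonneg (by linarith)
    have h3 : b ^ n ≤ a ^ n := pow_le_pow_left₀ hb h n
    rw [h2]
    have h4 := le_abs_self (a ^ (n + 1) - b ^ (n + 1))
    have h5 : (a - b) * b ^ n ≤ (a - b) * a ^ n := mul_le_mul_of_nonneg_left h3 (by linarith)
    exact ⟨by linarith, by linarith⟩
  · have h1 := sub_mul_pow_le ha h n
    have h2 : |a - b| = b - a := by rw [abs_sub_comm]; exact abs_of_nonneg (by linarith)
    have h3 : a ^ n ≤ b ^ n := pow_le_pow_left₀ ha h n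
    rw [h2]
    have h4 := neg_abs_le (a ^ (n + 1) - b ^ (n + 1))
    have h5 : (b - a) * a ^ n ≤ (b - a) * b ^ n := mul_le_mul_of_nonneg_left h3 (by linarith)
    exact ⟨by linarith, by linarith⟩

/-- The determinants of two flat pairs are small. -/
lemma flat_T {B C y z y' z' U x0 x1 : ℝ} {m : ℕ} (hm : 2 ≤ m) (hC : 1 ≤ C) (hx0 : 1 ≤ x0)
    (hU : 0 ≤ U) (hy : x0 ≤ y) (hz : x0 ≤ z) (hy' : x0 ≤ y') (hz' : x0 ≤ z') (hy1 : y ≤ x1)
    (hy1' : y' ≤ x1) (h : |B * y ^ m - C * z ^ m| ≤ U) (h' : |B * y' ^ m - C * z' ^ m| ≤ U) :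
    |z * y' - z' * y| ≤ 2 * U * x1 / x0 := by
  obtain ⟨n, rfl⟩ : ∃ n, m = n + 1 := ⟨m - 1, by omega⟩
  have hn : 1 ≤ n := by omega
  have y0 : 0 < y := by linarith
  have z0 : 0 < z := by linarith
  have y0' : 0 < y' := by linarith
  have z0' : 0 < z' := by linarith
  have x00 : 0 < x0 := by linarith
  obtain ⟨h1, h2⟩ := abs_sub_mul_pow_le (a := z * y') (b := z' * y) (by positivity) (by positivity) n
  set M := |z * y' - z' * y| with hM
  have hM0 : 0 ≤ M := abs_nonneg _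
  have h3 : |(z * y') ^ (n + 1) - (z' * y) ^ (n + 1)| ≤ U * (y' ^ (n + 1) + y ^ (n + 1)) := by
    have e1 : C * ((z * y') ^ (n + 1) - (z' * y) ^ (n + 1)) =
        (B * y' ^ (n + 1) - C * z' ^ (n + 1)) * y ^ (n + 1) -
          (B * y ^ (n + 1) - C * z ^ (n + 1)) * y' ^ (n + 1) := by
      rw [mul_pow, mul_pow]
      ring
    have e2 : |C * ((z * y') ^ (n + 1) - (z' * y) ^ (n + 1))| ≤
        U * y ^ (n + 1) + U * y' ^ (n + 1) := by
      rw [e1]
      refine (abs_sub _ _).trans ?_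
      rw [abs_mul, abs_mul, abs_of_pos (pow_pos y0 (n + 1)), abs_of_pos (pow_pos y0' (n + 1))]
      exact add_le_add (mul_le_mul_of_nonneg_right h' (by positivity))
        (mul_le_mul_of_nonneg_right h (by positivity))
    rw [abs_mul, abs_of_pos (by linarith : (0 : ℝ) < C)] at e2
    have e3 : |(z * y') ^ (n + 1) - (z' * y) ^ (n + 1)| ≤
        C * |(z * y') ^ (n + 1) - (z' * y) ^ (n + 1)| := le_mul_of_one_le_left (abs_nonneg _) hC
    linarith
  have hxp : x0 ≤ x0 ^ n := le_self_pow₀ hx0 (by omega)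
  have hfrac : ∀ a b : ℝ, x0 ≤ a → 0 < b → b ≤ x1 → b ^ (n + 1) / (a * b) ^ n ≤ x1 / x0 := by
    intro a b ha hb hb1
    have ha0 : 0 < a := by linarith
    have e1 : b ^ (n + 1) / (a * b) ^ n = b / a ^ n := by
      rw [mul_pow]
      field_simp
      ring
    rw [e1]
    have hx1 : 0 ≤ x1 := by linarith
    have e2 : x0 ≤ a ^ n := hxp.trans (pow_le_pow_left₀ x00.le ha n)
    gcongr
  -- the larger product
  have hA : M ≤ U * (y' ^ (n + 1) / (z * y') ^ n) + U * (y ^ (n + 1) / (z' * y) ^ n) := by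
    rcases le_total (z' * y) (z * y') with hle | hle
    · have hp : 0 < (z * y') ^ n := by positivity
      have hp' : 0 < (z' * y) ^ n := by positivity
      have e1 : M ≤ U * (y' ^ (n + 1) + y ^ (n + 1)) / (z * y') ^ n := by
        rw [le_div_iff₀ hp]
        linarith
      have e2 : (z' * y) ^ n ≤ (z * y') ^ n := pow_le_pow_left₀ (by positivity) hle n
      have e3 : y ^ (n + 1) / (z * y') ^ n ≤ y ^ (n + 1) / (z' * y) ^ n := by gcongr
      calc M ≤ U * (y' ^ (n + 1) + y ^ (n + 1)) / (z * y') ^ n := e1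
        _ = U * (y' ^ (n + 1) / (z * y') ^ n) + U * (y ^ (n + 1) / (z * y') ^ n) := by
            field_simp
        _ ≤ _ := add_le_add_right (mul_le_mul_of_nonneg_left e3 hU) _
    · have hp : 0 < (z * y') ^ n := by positivity
      have hp' : 0 < (z' * y) ^ n := by positivity
      have e1 : M ≤ U * (y' ^ (n + 1) + y ^ (n + 1)) / (z' * y) ^ n := by
        rw [le_div_iff₀ hp']
        linarith
      have e2 : (z * y') ^ n ≤ (z' * y) ^ n := pow_le_pow_left₀ (by positivity) hle n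
      have e3 : y' ^ (n + 1) / (z' * y) ^ n ≤ y' ^ (n + 1) / (z * y') ^ n := by gcongr
      calc M ≤ U * (y' ^ (n + 1) + y ^ (n + 1)) / (z' * y) ^ n := e1
        _ = U * (y' ^ (n + 1) / (z' * y) ^ n) + U * (y ^ (n + 1) / (z' * y) ^ n) := by
            field_simp
        _ ≤ _ := add_le_add_left (mul_le_mul_of_nonneg_left e3 hU) _
  have f1 := hfrac z y' hz y0' hy1'
  have f2 := hfrac z' y hz' y0 hy1
  calc M ≤ U * (y' ^ (n + 1) / (z * y') ^ n) + U * (y ^ (n + 1) / (z' * y) ^ n) := hA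
    _ ≤ U * (x1 / x0) + U * (x1 / x0) := add_le_add (mul_le_mul_of_nonneg_left f1 hU)
        (mul_le_mul_of_nonneg_left f2 hU)
    _ = 2 * U * x1 / x0 := by ring

/-- Counting by fibres. -/
lemma card_fib {α β : Type*} [DecidableEq β] (S : Finset α) (f : α → β) (L : Finset β)
    (hf : ∀ a ∈ S, f a ∈ L) {b : ℝ}
    (h : ∀ l ∈ L, ((S.filter (fun a => f a = l)).card : ℝ) ≤ b) :
    (S.card : ℝ) ≤ L.card * b := by
  rw [Finset.card_eq_sum_card_fiberwise (f := f) (t := L) (fun a ha => hf a ha)]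
  push_cast
  calc ∑ l ∈ L, ((S.filter (fun a => f a = l)).card : ℝ) ≤ ∑ _l ∈ L, b := sum_le_sum h
    _ = L.card * b := by rw [sum_const, nsmul_eq_mul]

/-- All data of a flat triple with values `i j k m B C y z`. -/
structure Dat (s a : ℝ) (v : ℕ × ℕ) (i j k : Fin 3) (m B C y z : ℕ) : Prop where
  hv : IsTri v
  hij : i ≠ j
  hik : i ≠ k
  hjk : j ≠ k
  hk : k ≠ 2
  hm : 2 ≤ m
  hi : coord v i = B * y ^ m
  hj : coord v j = C * z ^ m
  hy : y.Prime
  hz : z.Prime
  y0 : s / a ≤ y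
  y1 : (y : ℝ) ≤ s * a
  z0 : s / a ≤ z
  z1 : (z : ℝ) ≤ s * a

lemma Dat.B_pos {s a : ℝ} {v : ℕ × ℕ} {i j k : Fin 3} {m B C y z : ℕ}
    (h : Dat s a v i j k m B C y z) : 0 < B := by
  have h1 := co_pos h.hv i
  rw [h.hi] at h1
  exact Nat.pos_of_mul_pos_right h1

lemma Dat.C_pos {s a : ℝ} {v : ℕ × ℕ} {i j k : Fin 3} {m B C y z : ℕ}
    (h : Dat s a v i j k m B C y z) : 0 < C := by
  have h1 := co_pos h.hv j
  rw [h.hj] at h1
  exact Nat.pos_of_mul_pos_right h1

lemma Dat.ne {s a : ℝ} {v : ℕ × ℕ} {i j k : Fin 3} {m B C y z : ℕ}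
    (h : Dat s a v i j k m B C y z) : y ≠ z := by
  rintro rfl
  have h1 := co_cop h.hv h.hij
  rw [h.hi, h.hj] at h1
  have hm := h.hm
  have h2 : y ∣ B * y ^ m := Dvd.dvd.mul_left (dvd_pow_self y (by omega)) B
  have h3 : y ∣ C * y ^ m := Dvd.dvd.mul_left (dvd_pow_self y (by omega)) C
  exact Nat.not_coprime_of_dvd_of_dvd h.hy.one_lt h2 h3 h1

/-- One class, third coordinate small. -/
lemma cls_one (hF : S_FLT) {s a : ℝ} (hs : 0 < s) (ha : 1 ≤ a) (hsa : 1 ≤ s / a)
    (G : Finset (ℕ × ℕ)) (yy zz : ℕ × ℕ → ℕ) (i j k : Fin 3) (m B C : ℕ)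
    (hd : ∀ v ∈ G, Dat s a v i j k m B C (yy v) (zz v))
    (hs3 : ∀ v ∈ G, (coord v k : ℝ) ≤ s * a) :
    (G.card : ℝ) ≤ 10 * s * a ^ 5 := by
  classical
  have ha0 : 0 < a := by linarith
  have hinj : Set.InjOn (fun v => (yy v, zz v)) (G : Set (ℕ × ℕ)) := by
    intro v hv v' hv' h
    have h1 := Prod.ext_iff.mp h
    simp only at h1
    have d := hd v hv
    have d' := hd v' hv'
    exact co_inj d.hij (by rw [d.hi, d'.hi, h1.1]) (by rw [d.hj, d'.hj, h1.2])
  rw [← card_image_of_injOn hinj]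
  have h1 := hF 1 (2 * (s * a) * (s * a) / (s / a)) (s / a) (s * a)
    (G.image fun v => (yy v, zz v)) one_pos (by positivity) (by positivity) (by positivity)
    (by
      intro w hw
      obtain ⟨v, hv, rfl⟩ := mem_image.1 hw
      have d := hd v hv
      exact ⟨d.hy, d.hz, d.ne, d.y0, d.y1⟩)
    (by
      intro w hw u hu
      obtain ⟨v, hv, rfl⟩ := mem_image.1 hw
      obtain ⟨v', hv', rfl⟩ := mem_image.1 hu
      have d := hd v hv
      have d' := hd v' hv'
      refine ⟨by simp, ?_⟩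
      have habs : ∀ v ∈ G, |(B : ℝ) * (yy v : ℝ) ^ m - C * (zz v : ℝ) ^ m| ≤ s * a := by
        intro v hv
        have d := hd v hv
        have h2 := co_abs (v := v) d.hij d.hik d.hjk d.hk
        rw [d.hi, d.hj] at h2
        push_cast at h2
        rw [h2]
        exact hs3 v hv
      exact flat_T d.hm (by exact_mod_cast d.C_pos) hsa (by positivity) d.y0 d.z0 d'.y0 d'.z0
        d.y1 d'.y1 (habs v hv) (habs v' hv'))
  refine h1.trans ?_
  have e1 : 2 * (2 * (s * a) * (s * a) / (s / a)) / ((1 : ℕ) : ℝ) + 1 = 4 * s * a ^ 3 + 1 := by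
    push_cast
    field_simp
    ring
  have e2 : s * a / (s / a) + 1 = a ^ 2 + 1 := by
    field_simp
  rw [e1, e2]
  have hs1 : 1 ≤ s := by
    rw [le_div_iff₀ ha0] at hsa
    linarith
  have h3 : 1 ≤ a ^ 3 := one_le_pow₀ ha
  have h4 : 1 ≤ a ^ 2 := one_le_pow₀ ha
  have h5 : 1 ≤ s * a ^ 3 := by nlinarith
  calc (4 * s * a ^ 3 + 1) * (a ^ 2 + 1) ≤ (5 * (s * a ^ 3)) * (2 * a ^ 2) := by
        apply mul_le_mul _ _ (by positivity) (by positivity)
        · nlinarith
        · linarith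
    _ = 10 * s * a ^ 5 := by ring

/-- One class, third coordinate divisible by `q ^ 2`. -/
lemma cls_two (hF : S_FLT) (hR : S_RTS) {s a : ℝ} (hs : 0 < s) (ha : 1 ≤ a) (_hsa : 1 ≤ s / a)
    (G : Finset (ℕ × ℕ)) (yy zz : ℕ × ℕ → ℕ) (i j k : Fin 3) (m B C q : ℕ)
    (hd : ∀ v ∈ G, Dat s a v i j k m B C (yy v) (zz v))
    (hq : ∀ v ∈ G, q.Prime ∧ q ^ 2 ∣ coord v k ∧ s / a ≤ q) :
    (G.card : ℝ) ≤ (2 * m) * (6 * a ^ 6) := by
  classical
  have ha0 : 0 < a := by linarith
  rcases G.eq_empty_or_nonempty with rfl | ⟨v0, hv0⟩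
  · rw [card_empty]
    push_cast
    positivity
  have hqp : q.Prime := (hq v0 hv0).1
  have hm := (hd v0 hv0).hm
  have hq0 : (0 : ℝ) < q := by exact_mod_cast hqp.pos
  set M := q ^ 2 with hM
  have hM0 : 0 < M := pow_pos hqp.pos 2
  -- units
  have hcop : ∀ v ∈ G, ∀ t : Fin 3, t ≠ k → ∀ n : ℕ, n ∣ coord v t → n.Coprime M := by
    intro v hv t ht n hn
    have h1 := co_cop (hd v hv).hv ht
    exact Nat.Coprime.coprime_dvd_left hn (Nat.Coprime.coprime_dvd_right (hq v hv).2.1 h1)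
  have hB : B.Coprime M := hcop v0 hv0 i (hd v0 hv0).hik B (by rw [(hd v0 hv0).hi]; exact Dvd.intro _ rfl)
  have hy : ∀ v ∈ G, (yy v).Coprime M := fun v hv => hcop v hv i (hd v hv).hik _ (by
    rw [(hd v hv).hi]
    exact Dvd.dvd.mul_left (dvd_pow_self _ (by have := (hd v hv).hm; omega)) _)
  have hz : ∀ v ∈ G, (zz v).Coprime M := fun v hv => hcop v hv j (hd v hv).hjk _ (by
    rw [(hd v hv).hj]
    exact Dvd.dvd.mul_left (dvd_pow_self _ (by have := (hd v hv).hm; omega)) _)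
  have hu : ∀ n : ℕ, n.Coprime M → (n : ZMod M) * (n : ZMod M)⁻¹ = 1 :=
    fun n hn => ZMod.coe_mul_inv_eq_one n hn
  set ρ : ℕ × ℕ → ZMod M := fun v => (yy v : ZMod M) * (zz v : ZMod M)⁻¹ with hρ
  have hpow : ∀ v ∈ G, ρ v ^ m = (C : ZMod M) * (B : ZMod M)⁻¹ := by
    intro v hv
    have d := hd v hv
    have h1 : (M : ℤ) ∣ (coord v i : ℤ) - coord v j := by
      refine dvd_trans ?_ (co_dvd d.hij d.hik d.hjk d.hk)
      exact_mod_cast (hq v hv).2.1
    rw [d.hi, d.hj] at h1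
    have h2 : (B : ZMod M) * (yy v : ZMod M) ^ m = (C : ZMod M) * (zz v : ZMod M) ^ m := by
      have h3 := (ZMod.intCast_zmod_eq_zero_iff_dvd _ M).2 h1
      push_cast at h3
      exact sub_eq_zero.1 h3
    have h4 := hu B hB
    have h5 := hu (zz v) (hz v hv)
    rw [hρ]
    dsimp only
    calc ((yy v : ZMod M) * (zz v : ZMod M)⁻¹) ^ m
        = ((B : ZMod M) * (B : ZMod M)⁻¹) * ((yy v : ZMod M) * (zz v : ZMod M)⁻¹) ^ m := by
          rw [h4, one_mul]
      _ = (B : ZMod M) * (yy v : ZMod M) ^ m * (B : ZMod M)⁻¹ * ((zz v : ZMod M)⁻¹) ^ m := by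
          rw [mul_pow]
          ring
      _ = (C : ZMod M) * (zz v : ZMod M) ^ m * (B : ZMod M)⁻¹ * ((zz v : ZMod M)⁻¹) ^ m := by
          rw [h2]
      _ = (C : ZMod M) * (B : ZMod M)⁻¹ * ((zz v : ZMod M) * (zz v : ZMod M)⁻¹) ^ m := by
          rw [mul_pow]
          ring
      _ = (C : ZMod M) * (B : ZMod M)⁻¹ := by rw [h5, one_pow, mul_one]
  -- inverse of the ratio of `v0`
  set r : ZMod M := (zz v0 : ZMod M) * (yy v0 : ZMod M)⁻¹ with hr
  have hr1 : ρ v0 * r = 1 := by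
    have h4 := hu _ (hy v0 hv0)
    have h5 := hu _ (hz v0 hv0)
    rw [hρ, hr]
    dsimp only
    calc (yy v0 : ZMod M) * (zz v0 : ZMod M)⁻¹ * ((zz v0 : ZMod M) * (yy v0 : ZMod M)⁻¹)
        = ((yy v0 : ZMod M) * (yy v0 : ZMod M)⁻¹) * ((zz v0 : ZMod M) * (zz v0 : ZMod M)⁻¹) := by
          ring
      _ = 1 := by rw [h4, h5, one_mul]
  have himg : (G.image ρ).card ≤ 2 * m := by
    have hinj : Set.InjOn (fun x : ZMod M => x * r) (G.image ρ : Set (ZMod M)) := by
      intro x _ x' _ h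
      have h1 : x * r = x' * r := h
      calc x = x * (ρ v0 * r) := by rw [hr1, mul_one]
        _ = (x * r) * ρ v0 := by ring
        _ = (x' * r) * ρ v0 := by rw [h1]
        _ = x' * (ρ v0 * r) := by ring
        _ = x' := by rw [hr1, mul_one]
    rw [← card_image_of_injOn hinj]
    have h1 := hR M m ((G.image ρ).image fun x => x * r) hM0 (by omega) (by
      intro t ht
      obtain ⟨x, hx, rfl⟩ := mem_image.1 ht
      obtain ⟨v, hv, rfl⟩ := mem_image.1 hx
      show (ρ v * r) ^ m = 1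
      rw [mul_pow, hpow v hv, ← hpow v0 hv0, ← mul_pow, hr1, one_pow])
    have h2 : M.primeFactors.card = 1 := by
      rw [hM, Nat.primeFactors_prime_pow two_ne_zero hqp, card_singleton]
    rwa [h2, pow_one] at h1
  -- sub-classes
  have hsub : ∀ l ∈ G.image ρ, ((G.filter fun v => ρ v = l).card : ℝ) ≤ 6 * a ^ 6 := by
    intro l _
    set G' := G.filter fun v => ρ v = l with hG'
    have hG : ∀ v ∈ G', v ∈ G := fun v hv => (mem_filter.1 hv).1
    have hinj : Set.InjOn (fun v => (yy v, zz v)) (G' : Set (ℕ × ℕ)) := by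
      intro v hv v' hv' h
      have h1 := Prod.ext_iff.mp h
      simp only at h1
      have d := hd v (hG v hv)
      have d' := hd v' (hG v' hv')
      exact co_inj d.hij (by rw [d.hi, d'.hi, h1.1]) (by rw [d.hj, d'.hj, h1.2])
    rw [← card_image_of_injOn hinj]
    have h1 := hF M ((s * a) * (s * a)) (s / a) (s * a)
      (G'.image fun v => (yy v, zz v)) hM0 (by positivity) (by positivity) (by positivity)
      (by
        intro w hw
        obtain ⟨v, hv, rfl⟩ := mem_image.1 hw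
        have d := hd v (hG v hv)
        exact ⟨d.hy, d.hz, d.ne, d.y0, d.y1⟩)
      (by
        intro w hw u hu'
        obtain ⟨v, hv, rfl⟩ := mem_image.1 hw
        obtain ⟨v', hv', rfl⟩ := mem_image.1 hu'
        have d := hd v (hG v hv)
        have d' := hd v' (hG v' hv')
        constructor
        · have h2 : ρ v = ρ v' := by rw [(mem_filter.1 hv).2, (mem_filter.1 hv').2]
          have h5 := hu _ (hz v (hG v hv))
          have h5' := hu _ (hz v' (hG v' hv'))
          have h6 : (yy v : ZMod M) * (zz v' : ZMod M) = (yy v' : ZMod M) * (zz v : ZMod M) := by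
            calc (yy v : ZMod M) * (zz v' : ZMod M)
                = ((zz v : ZMod M) * (zz v : ZMod M)⁻¹) * ((yy v : ZMod M) * (zz v' : ZMod M)) := by
                  rw [h5, one_mul]
              _ = ρ v * ((zz v : ZMod M) * (zz v' : ZMod M)) := by
                  rw [hρ]
                  ring
              _ = ρ v' * ((zz v : ZMod M) * (zz v' : ZMod M)) := by rw [h2]
              _ = ((zz v' : ZMod M) * (zz v' : ZMod M)⁻¹) * ((yy v' : ZMod M) * (zz v : ZMod M)) := by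
                  rw [hρ]
                  ring
              _ = (yy v' : ZMod M) * (zz v : ZMod M) := by rw [h5', one_mul]
          rw [← ZMod.intCast_zmod_eq_zero_iff_dvd]
          push_cast
          rw [sub_eq_zero, mul_comm, ← h6, mul_comm]
        · have b1 : (0 : ℝ) ≤ (zz v : ℝ) * yy v' := by positivity
          have b2 : (0 : ℝ) ≤ (zz v' : ℝ) * yy v := by positivity
          have b3 : (zz v : ℝ) * yy v' ≤ (s * a) * (s * a) :=
            mul_le_mul d.z1 d'.y1 (by positivity) (by positivity)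
          have b4 : (zz v' : ℝ) * yy v ≤ (s * a) * (s * a) :=
            mul_le_mul d'.z1 d.y1 (by positivity) (by positivity)
          exact abs_sub_le_iff.2 ⟨by linarith, by linarith⟩)
    refine h1.trans ?_
    have hq2 : s / a ≤ q := (hq v0 hv0).2.2
    have e1 : 2 * (s * a * (s * a)) / ((M : ℕ) : ℝ) ≤ 2 * a ^ 4 := by
      rw [hM]
      push_cast
      rw [div_le_iff₀ (by positivity)]
      have h3 : (s / a) ^ 2 ≤ (q : ℝ) ^ 2 := by gcongr
      have h4 : 2 * (s * a * (s * a)) = 2 * a ^ 4 * (s / a) ^ 2 := by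
        field_simp
      rw [h4]
      exact mul_le_mul_of_nonneg_left h3 (by positivity)
    have e2 : s * a / (s / a) + 1 = a ^ 2 + 1 := by
      field_simp
    rw [e2]
    have h3 : 1 ≤ a ^ 4 := one_le_pow₀ ha
    have h4 : 1 ≤ a ^ 2 := one_le_pow₀ ha
    calc (2 * (s * a * (s * a)) / ((M : ℕ) : ℝ) + 1) * (a ^ 2 + 1)
        ≤ (3 * a ^ 4) * (2 * a ^ 2) := by
          apply mul_le_mul _ _ (by positivity) (by positivity)
          · linarith
          · linarith
      _ = 6 * a ^ 6 := by ring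
  have h1 := card_fib G ρ (G.image ρ) (fun v hv => mem_image_of_mem ρ hv) hsub
  refine h1.trans ?_
  refine mul_le_mul_of_nonneg_right ?_ (by positivity)
  exact_mod_cast himg

end CNF31

open CNF31 in
/-- **CNF**. -/
theorem cnf_thm (hF : S_FLT) (hR : S_RTS) : S_CNF := by
  classical
  intro κ τ hκ hτ hτ1
  have hl2 : 0 < Real.log 2 := Real.log_pos (by norm_num)
  set K : ℝ := κ / (τ * Real.log 2) + 1 with hK
  have hK1 : 1 ≤ K := by
    have : 0 ≤ κ / (τ * Real.log 2) := by positivity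
    linarith
  refine ⟨1080 * K + 2592 * K ^ 2, by nlinarith, ?_⟩
  intro X F hX hFv
  have hX0 : 0 < X := by linarith
  set s : ℝ := X ^ (1 / 3 : ℝ) with hs
  set a : ℝ := X ^ τ with ha
  have ha1 : 1 ≤ a := Real.one_le_rpow hX hτ.le
  have hs1 : 1 ≤ s := Real.one_le_rpow hX (by norm_num)
  have ha0 : 0 < a := by linarith
  have hs0 : 0 < s := by linarith
  have hx1 : X ^ (1 / 3 + τ) = s * a := Real.rpow_add hX0 _ _
  have hx0 : X ^ (1 / 3 - τ) = s / a := Real.rpow_sub hX0 _ _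
  have hsa : 1 ≤ s / a := by
    rw [← hx0]
    exact Real.one_le_rpow hX (by linarith)
  have hfin : X ^ (1 / 3 + 20 * τ) = s * a ^ 20 := by
    rw [Real.rpow_add hX0, hs, ha]
    congr 1
    rw [← Real.rpow_natCast (X ^ τ) 20, ← Real.rpow_mul hX0.le]
    congr 1
    push_cast
    ring
  have hopt : ∀ v ∈ F, ∃ (i j k : Fin 3) (m B C y z : ℕ), Dat s a v i j k m B C y z ∧
      (B : ℝ) ≤ a ∧ (C : ℝ) ≤ a ∧ ((coord v k : ℝ) ≤ s * a ∨
        ∃ q : ℕ, q.Prime ∧ q ^ 2 ∣ coord v k ∧ s / a ≤ q ∧ (q : ℝ) ≤ s * a) := by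
    intro v hv
    obtain ⟨ht, _, _, i, j, k, m, B, C, y, z, h1, h2, h3, h4, h5, h6, h7, h8, h9, h10, h11, h12,
      h13, h14, h15, h16⟩ := hFv v hv
    rw [hx1] at h13 h15 h16
    rw [hx0] at h12 h14 h16
    exact ⟨i, j, k, m, B, C, y, z, ⟨ht, h1, h2, h3, h4, h5, h6, h7, h10, h11, h12, h13, h14, h15⟩,
      h8, h9, h16⟩
  choose! ii jj kk mm BB CC yy zz hdat hBa hCa halt using hopt
  set Nm : ℕ := ⌊κ * Real.log X / Real.log 2⌋₊ with hNm
  set NB : ℕ := ⌊a⌋₊ with hNB
  set Nq : ℕ := ⌊s * a⌋₊ with hNq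
  have hlogX : 0 ≤ Real.log X := Real.log_nonneg hX
  have hmm : ∀ v ∈ F, mm v ≤ Nm := by
    intro v hv
    have d := hdat v hv
    refine Nat.le_floor ?_
    rw [le_div_iff₀ hl2]
    refine le_trans ?_ (hFv v hv).2.2.1
    unfold hh
    rw [← Real.log_pow]
    refine Real.log_le_log (by positivity) ?_
    have h1 : 2 ^ mm v ≤ yy v ^ mm v := Nat.pow_le_pow_left d.hy.two_le _
    have h2 : yy v ^ mm v ≤ BB v * yy v ^ mm v := Nat.le_mul_of_pos_left _ d.B_pos
    have h3 := co_le v (ii v)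
    rw [d.hi] at h3
    exact_mod_cast h1.trans (h2.trans h3)
  have hNmK : ((Nm + 1 : ℕ) : ℝ) ≤ K * a := by
    have h1 : (Nm : ℝ) ≤ κ * Real.log X / Real.log 2 := Nat.floor_le (by positivity)
    have h2 : Real.log X ≤ a / τ := Real.log_le_rpow_div hX0.le hτ
    have h3 : κ * Real.log X / Real.log 2 ≤ κ * (a / τ) / Real.log 2 := by gcongr
    have h4 : κ * (a / τ) / Real.log 2 = κ / (τ * Real.log 2) * a := by field_simp
    push_cast
    rw [hK, add_mul, one_mul]
    linarith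
  have hNBa : ((NB + 1 : ℕ) : ℝ) ≤ 2 * a := by
    have h1 : (NB : ℝ) ≤ a := Nat.floor_le ha0.le
    push_cast
    linarith
  have hNqa : ((Nq + 1 : ℕ) : ℝ) ≤ 2 * (s * a) := by
    have h1 : (Nq : ℝ) ≤ s * a := Nat.floor_le (by positivity)
    have h2 : 1 ≤ s * a := by nlinarith
    push_cast
    linarith
  -- labels
  set lab : ℕ × ℕ → Fin 3 × Fin 3 × Fin 3 × ℕ × ℕ × ℕ :=
    fun v => (ii v, jj v, kk v, mm v, BB v, CC v) with hlab
  set Lb : Finset (Fin 3 × Fin 3 × Fin 3 × ℕ × ℕ × ℕ) :=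
    univ ×ˢ univ ×ˢ univ ×ˢ range (Nm + 1) ×ˢ range (NB + 1) ×ˢ range (NB + 1) with hLb
  have hlabm : ∀ v ∈ F, lab v ∈ Lb := by
    intro v hv
    simp only [hlab, hLb, mem_product, mem_univ, mem_range, true_and]
    exact ⟨Nat.lt_succ_of_le (hmm v hv), Nat.lt_succ_of_le (Nat.le_floor (hBa v hv)),
      Nat.lt_succ_of_le (Nat.le_floor (hCa v hv))⟩
  have hLbc : (Lb.card : ℝ) ≤ 27 * (K * a) * (2 * a) ^ 2 := by
    have h1 : Lb.card = 27 * (Nm + 1) * (NB + 1) ^ 2 := by
      simp only [hLb, card_product, card_univ, Fintype.card_fin, card_range]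
      ring
    rw [h1]
    have h2 : ((27 * (Nm + 1) * (NB + 1) ^ 2 : ℕ) : ℝ) =
        27 * ((Nm + 1 : ℕ) : ℝ) * ((NB + 1 : ℕ) : ℝ) ^ 2 := by push_cast; ring
    rw [h2]
    gcongr
  -- the two alternatives
  set F1 := F.filter fun v => (coord v (kk v) : ℝ) ≤ s * a with hF1
  set F2 := F.filter fun v => ¬ (coord v (kk v) : ℝ) ≤ s * a with hF2
  have hsplit : (F.card : ℝ) = F1.card + F2.card := by
    rw [hF1, hF2]
    have h1 := Finset.card_filter_add_card_filter_not (s := F)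
      (fun v => (coord v (kk v) : ℝ) ≤ s * a)
    exact_mod_cast h1.symm
  have hc1 : (F1.card : ℝ) ≤ (27 * (K * a) * (2 * a) ^ 2) * (10 * s * a ^ 5) := by
    have h1 := card_fib F1 lab Lb (fun v hv => hlabm v (mem_filter.1 hv).1)
      (b := 10 * s * a ^ 5) (by
        rintro ⟨i, j, k, m, B, C⟩ _
        refine cls_one hF hs0 ha1 hsa _ yy zz i j k m B C ?_ ?_
        · intro v hv
          rw [mem_filter] at hv
          obtain ⟨hv1, hv2⟩ := hv
          have d := hdat v (mem_filter.1 hv1).1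
          simp only [hlab, Prod.mk.injEq] at hv2
          obtain ⟨rfl, rfl, rfl, rfl, rfl, rfl⟩ := hv2
          exact d
        · intro v hv
          rw [mem_filter] at hv
          obtain ⟨hv1, hv2⟩ := hv
          have h3 := (mem_filter.1 hv1).2
          simp only [hlab, Prod.mk.injEq] at hv2
          obtain ⟨rfl, rfl, rfl, rfl, rfl, rfl⟩ := hv2
          exact h3)
    exact h1.trans (mul_le_mul_of_nonneg_right hLbc (by positivity))
  have hc2 : (F2.card : ℝ) ≤
      (27 * (K * a) * (2 * a) ^ 2 * (2 * (s * a))) * ((2 * (K * a)) * (6 * a ^ 6)) := by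
    have hq : ∀ v ∈ F2, ∃ q : ℕ, q.Prime ∧ q ^ 2 ∣ coord v (kk v) ∧ s / a ≤ q ∧
        (q : ℝ) ≤ s * a := by
      intro v hv
      obtain ⟨h1, h2⟩ := mem_filter.1 hv
      exact (halt v h1).resolve_left h2
    choose! qq hq1 hq2 hq3 hq4 using hq
    have h1 := card_fib F2 (fun v => (lab v, qq v)) (Lb ×ˢ range (Nq + 1)) (fun v hv => by
      rw [mem_product]
      refine ⟨hlabm v (mem_filter.1 hv).1, ?_⟩
      rw [mem_range]
      exact Nat.lt_succ_of_le (Nat.le_floor (hq4 v hv)))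
      (b := (2 * (K * a)) * (6 * a ^ 6)) (by
        rintro ⟨⟨i, j, k, m, B, C⟩, q⟩ hl
        have hmN : (m : ℝ) ≤ K * a := by
          rw [mem_product] at hl
          simp only [hLb, mem_product, mem_univ, mem_range, true_and] at hl
          have h2 : m ≤ Nm + 1 := by omega
          have h3 : (m : ℝ) ≤ ((Nm + 1 : ℕ) : ℝ) := by exact_mod_cast h2
          linarith
        refine (cls_two hF hR hs0 ha1 hsa _ yy zz i j k m B C q ?_ ?_).trans ?_
        · intro v hv
          rw [mem_filter] at hv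
          obtain ⟨hv1, hv2⟩ := hv
          have d := hdat v (mem_filter.1 hv1).1
          simp only [hlab, Prod.mk.injEq] at hv2
          obtain ⟨⟨rfl, rfl, rfl, rfl, rfl, rfl⟩, rfl⟩ := hv2
          exact d
        · intro v hv
          rw [mem_filter] at hv
          obtain ⟨hv1, hv2⟩ := hv
          have h3 := hq1 v hv1
          have h4 := hq2 v hv1
          have h5 := hq3 v hv1
          simp only [hlab, Prod.mk.injEq] at hv2
          obtain ⟨⟨rfl, rfl, rfl, rfl, rfl, rfl⟩, rfl⟩ := hv2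
          exact ⟨h3, h4, h5⟩
        · gcongr)
    refine h1.trans (mul_le_mul_of_nonneg_right ?_ (by positivity))
    rw [card_product, card_range]
    have h2 : ((Lb.card * (Nq + 1) : ℕ) : ℝ) = (Lb.card : ℝ) * ((Nq + 1 : ℕ) : ℝ) := by push_cast; ring
    rw [h2]
    exact mul_le_mul hLbc hNqa (by positivity) (by positivity)
  rw [hsplit, hfin]
  have e1 : (27 * (K * a) * (2 * a) ^ 2) * (10 * s * a ^ 5) = 1080 * K * (s * a ^ 8) := by ring
  have e2 : (27 * (K * a) * (2 * a) ^ 2 * (2 * (s * a))) * ((2 * (K * a)) * (6 * a ^ 6)) =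
      2592 * K ^ 2 * (s * a ^ 11) := by ring
  rw [e1] at hc1
  rw [e2] at hc2
  have h8 : a ^ 8 ≤ a ^ 20 := pow_le_pow_right₀ ha1 (by norm_num)
  have h11 : a ^ 11 ≤ a ^ 20 := pow_le_pow_right₀ ha1 (by norm_num)
  calc (F1.card : ℝ) + F2.card ≤ 1080 * K * (s * a ^ 8) + 2592 * K ^ 2 * (s * a ^ 11) :=
        add_le_add hc1 hc2
    _ ≤ 1080 * K * (s * a ^ 20) + 2592 * K ^ 2 * (s * a ^ 20) := by gcongr
    _ = (1080 * K + 2592 * K ^ 2) * (s * a ^ 20) := by ring

end Pool.MED
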