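import Pool.Agent.H47.MED.Stmts
import Pool.Agent.H22.VIO.FIV

/-!
# MED, module FIA: the final statement
-/

set_option autoImplicit false

namespace Pool.MED

open Finset Pool.Agent.H98.ABCR Pool.SHA Pool.ABY Pool.VIO Pool.VIO.H22V

namespace FIA31

/-- dyadic summation over the radical -/
lemma exc_bound (ε c1 C1 B : ℝ) (J₀ : ℕ) (hε : 0 < ε) (hc1 : 0 < c1) (hc13 : c1 ≤ 1 / 3)
    (hC1 : 1 ≤ C1) (hB : 0 ≤ B) (hJ : 1 / 3 + ε / 2 ≤ ε / 2 * J₀)
    (hsmall : ∀ F : Finset (ℕ × ℕ), (∀ v ∈ F, IsTri v ∧ (RR v : ℝ) ≤ 2 ^ J₀) → (F.card : ℝ) ≤ B)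
    (h : ∀ (X : ℝ) (F : Finset (ℕ × ℕ)), 1 ≤ X →
      (∀ v ∈ F, IsTri v ∧ (RR v : ℝ) ≤ X ∧ (1 / 3 + ε / 2) * Real.log X ≤ hh v) →
      (F.card : ℝ) ≤ C1 * X ^ (2 / 3 - c1)) :
    ∃ C : ℝ, 0 ≤ C ∧ ∀ (X : ℝ) (F : Finset (ℕ × ℕ)), 2 ≤ X →
      (∀ v ∈ F, IsTri v ∧ (RR v : ℝ) ≤ X ∧
        (RR v : ℝ) ^ (1 / 3 + ε) < ((v.1 + v.2 : ℕ) : ℝ)) →
      (F.card : ℝ) ≤ C * X ^ (2 / 3 - c1 / 2) := by
  classical
  refine ⟨(2 / (c1 / 2) + 1) * (2 * C1 + B), by positivity, ?_⟩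
  intro X F hX hF
  have hX0 : 0 < X := by linarith
  have hX1 : 1 ≤ X := by linarith
  have hXp : 1 ≤ X ^ (2 / 3 - c1) := Real.one_le_rpow hX1 (by linarith)
  -- classes
  have hcard : F.card = ∑ j ∈ Finset.range (Nat.log 2 ⌊X⌋₊ + 1),
      (F.filter (fun v => Nat.log 2 (RR v) = j)).card := by
    apply Finset.card_eq_sum_card_fiberwise
    intro v hv
    rw [Finset.mem_coe, Finset.mem_range, Nat.lt_succ_iff]
    exact Nat.log_mono_right (Nat.le_floor (hF v hv).2.1)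
  have hfib : ∀ j ∈ Finset.range (Nat.log 2 ⌊X⌋₊ + 1),
      ((F.filter (fun v => Nat.log 2 (RR v) = j)).card : ℝ) ≤ (2 * C1 + B) * X ^ (2 / 3 - c1) := by
    intro j hj
    rw [Finset.mem_range, Nat.lt_succ_iff] at hj
    by_cases hjJ : j < J₀
    · have h1 := hsmall (F.filter (fun v => Nat.log 2 (RR v) = j)) (by
        intro v hv
        rw [Finset.mem_filter] at hv
        obtain ⟨hvF, hvj⟩ := hv
        refine ⟨(hF v hvF).1, ?_⟩
        have h3 : RR v < 2 ^ (j + 1) := by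
          rw [← hvj]; exact Nat.lt_pow_succ_log_self (by norm_num) _
        have h4 : 2 ^ (j + 1) ≤ 2 ^ J₀ := Nat.pow_le_pow_right (by norm_num) hjJ
        exact_mod_cast (h3.le.trans h4))
      refine h1.trans ?_
      have h2 : B ≤ B * X ^ (2 / 3 - c1) := le_mul_of_one_le_right hB hXp
      have h3 : 0 ≤ 2 * C1 * X ^ (2 / 3 - c1) := by positivity
      linarith [add_mul (2 * C1) B (X ^ (2 / 3 - c1))]
    · have hjJ' : (J₀ : ℝ) ≤ j := by exact_mod_cast (not_lt.mp hjJ)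
      have h1 := h ((2 : ℝ) ^ (j + 1)) (F.filter (fun v => Nat.log 2 (RR v) = j))
        (one_le_pow₀ (by norm_num)) (by
          intro v hv
          rw [Finset.mem_filter] at hv
          obtain ⟨hvF, hvj⟩ := hv
          obtain ⟨ht, hR, hc⟩ := hF v hvF
          have h2 := two_le_RR ht
          have h3 : RR v < 2 ^ (j + 1) := by
            rw [← hvj]; exact Nat.lt_pow_succ_log_self (by norm_num) _
          have h4 : 2 ^ j ≤ RR v := by
            rw [← hvj]; exact Nat.pow_log_le_self 2 (by omega)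
          refine ⟨ht, by exact_mod_cast h3.le, ?_⟩
          have hR0 : (0 : ℝ) < RR v := by exact_mod_cast RR_pos v
          have hl2 : 0 < Real.log 2 := Real.log_pos (by norm_num)
          have h7 : j * Real.log 2 ≤ Real.log (RR v) := by
            rw [← Real.log_pow]
            exact Real.log_le_log (by positivity) (by exact_mod_cast h4)
          have h9 : (1 / 3 + ε) * Real.log (RR v) < hh v := by
            unfold hh
            rw [← Real.log_rpow hR0]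
            exact Real.log_lt_log (by positivity) hc
          have h10 : (1 / 3 + ε / 2) * (j + 1 : ℝ) ≤ (1 / 3 + ε) * j := by
            have : ε / 2 * J₀ ≤ ε / 2 * j := mul_le_mul_of_nonneg_left hjJ' (by positivity)
            linarith
          calc (1 / 3 + ε / 2) * Real.log ((2 : ℝ) ^ (j + 1))
              = ((1 / 3 + ε / 2) * (j + 1 : ℝ)) * Real.log 2 := by
                rw [Real.log_pow]
                push_cast
                ring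
            _ ≤ ((1 / 3 + ε) * j) * Real.log 2 := mul_le_mul_of_nonneg_right h10 hl2.le
            _ = (1 / 3 + ε) * (j * Real.log 2) := by ring
            _ ≤ (1 / 3 + ε) * Real.log (RR v) := mul_le_mul_of_nonneg_left h7 (by positivity)
            _ ≤ hh v := h9.le)
      refine h1.trans ?_
      have h2 : (2 : ℝ) ^ (j + 1) ≤ 2 * X := by
        have h3 : 2 ^ j ≤ ⌊X⌋₊ := by
          refine le_trans (Nat.pow_le_pow_right (by norm_num) hj) (Nat.pow_log_le_self 2 ?_)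
          have : 1 ≤ ⌊X⌋₊ := Nat.le_floor (by exact_mod_cast hX1)
          omega
        have h4 : ((2 : ℝ)) ^ j ≤ X := le_trans (by exact_mod_cast h3) (Nat.floor_le hX0.le)
        rw [pow_succ]; linarith
      have h3 : ((2 : ℝ) ^ (j + 1)) ^ (2 / 3 - c1) ≤ (2 * X) ^ (2 / 3 - c1) :=
        Real.rpow_le_rpow (by positivity) h2 (by linarith)
      have h4 : (2 * X) ^ (2 / 3 - c1) ≤ 2 * X ^ (2 / 3 - c1) := by
        rw [Real.mul_rpow (by norm_num) hX0.le]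
        have h5 : (2 : ℝ) ^ (2 / 3 - c1) ≤ 2 := by
          calc (2 : ℝ) ^ (2 / 3 - c1) ≤ (2 : ℝ) ^ (1 : ℝ) :=
                Real.rpow_le_rpow_of_exponent_le (by norm_num) (by linarith)
            _ = 2 := Real.rpow_one _
        exact mul_le_mul_of_nonneg_right h5 (by positivity)
      have h5 : 0 ≤ B * X ^ (2 / 3 - c1) := by positivity
      calc C1 * ((2 : ℝ) ^ (j + 1)) ^ (2 / 3 - c1) ≤ C1 * (2 * X ^ (2 / 3 - c1)) :=
            mul_le_mul_of_nonneg_left (h3.trans h4) (by linarith)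
        _ ≤ (2 * C1 + B) * X ^ (2 / 3 - c1) := by linarith [add_mul (2 * C1) B (X ^ (2 / 3 - c1))]
  have hlog : ((Nat.log 2 ⌊X⌋₊ + 1 : ℕ) : ℝ) ≤ (2 / (c1 / 2) + 1) * X ^ (c1 / 2) := by
    have h0 : ⌊X⌋₊ ≠ 0 := by
      have : 1 ≤ ⌊X⌋₊ := Nat.le_floor (by exact_mod_cast hX1)
      omega
    have h1 : ((2 : ℝ)) ^ (Nat.log 2 ⌊X⌋₊) ≤ X := by
      have h2 := Nat.pow_log_le_self 2 h0
      exact le_trans (by exact_mod_cast h2) (Nat.floor_le hX0.le)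
    have h2 : (Nat.log 2 ⌊X⌋₊ : ℝ) * Real.log 2 ≤ Real.log X := by
      rw [← Real.log_pow]
      exact Real.log_le_log (by positivity) h1
    have h3 : Real.log X ≤ X ^ (c1 / 2) / (c1 / 2) := Real.log_le_rpow_div hX0.le (by positivity)
    have h4 : (1 : ℝ) / 2 ≤ Real.log 2 := by
      have := Real.log_two_gt_d9
      linarith
    have h5 : (Nat.log 2 ⌊X⌋₊ : ℝ) ≤ 2 * Real.log X := by
      have h6 : (0 : ℝ) ≤ (Nat.log 2 ⌊X⌋₊ : ℝ) := Nat.cast_nonneg _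
      nlinarith
    have h6 : 1 ≤ X ^ (c1 / 2) := Real.one_le_rpow hX1 (by positivity)
    push_cast
    calc (Nat.log 2 ⌊X⌋₊ : ℝ) + 1 ≤ 2 * (X ^ (c1 / 2) / (c1 / 2)) + X ^ (c1 / 2) := by linarith
      _ = (2 / (c1 / 2) + 1) * X ^ (c1 / 2) := by ring
  rw [hcard, Nat.cast_sum]
  calc ∑ j ∈ Finset.range (Nat.log 2 ⌊X⌋₊ + 1),
        ((F.filter (fun v => Nat.log 2 (RR v) = j)).card : ℝ)
      ≤ ∑ _j ∈ Finset.range (Nat.log 2 ⌊X⌋₊ + 1), (2 * C1 + B) * X ^ (2 / 3 - c1) :=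
        Finset.sum_le_sum hfib
    _ = ((Nat.log 2 ⌊X⌋₊ + 1 : ℕ) : ℝ) * ((2 * C1 + B) * X ^ (2 / 3 - c1)) := by
        rw [Finset.sum_const, nsmul_eq_mul, Finset.card_range]
    _ ≤ ((2 / (c1 / 2) + 1) * X ^ (c1 / 2)) * ((2 * C1 + B) * X ^ (2 / 3 - c1)) :=
        mul_le_mul_of_nonneg_right hlog (by positivity)
    _ = (2 / (c1 / 2) + 1) * (2 * C1 + B) * (X ^ (c1 / 2) * X ^ (2 / 3 - c1)) := by ring
    _ = (2 / (c1 / 2) + 1) * (2 * C1 + B) * X ^ (2 / 3 - c1 / 2) := by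
        rw [← Real.rpow_add hX0]; ring_nf

end FIA31

open FIA31 in
/-- **FIA**. -/
theorem fia_thm (hT : S_TOF) (hA : S_ALL) : S_FIA := by
  classical
  intro ε hε
  obtain ⟨c1, C1, hc1, hC1, h⟩ := hT (ε / 2) (by positivity)
  obtain ⟨CA, hCA, hAll⟩ := hA 1 one_pos
  have hm : 0 < min c1 (1 / 3) := lt_min hc1 (by norm_num)
  have hbd : ∀ X : ℝ, 1 ≤ X → ∀ F : Finset (ℕ × ℕ), (∀ v ∈ F, IsTri v ∧ (RR v : ℝ) ≤ X) →
      (F.card : ℝ) ≤ CA * X ^ (1 : ℝ) * Real.sqrt (X * X) := fun X hX F hF =>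
    hAll X X F hX hX (fun v hv => by
      obtain ⟨ht, h5⟩ := hF v hv
      refine ⟨ht, h5, 0, ?_⟩
      have h6 : (rad (coord v 0) : ℝ) ≤ RR v := by exact_mod_cast rad_coord_le ht 0
      exact h6.trans h5)
  obtain ⟨J₀, hJ₀⟩ := exists_nat_ge ((1 / 3 + ε / 2) / (ε / 2))
  have hJ : 1 / 3 + ε / 2 ≤ ε / 2 * J₀ := by
    rw [div_le_iff₀ (by positivity)] at hJ₀
    linarith
  have hB0 : 0 ≤ CA * ((2 : ℝ) ^ J₀) ^ (1 : ℝ) * Real.sqrt ((2 : ℝ) ^ J₀ * (2 : ℝ) ^ J₀) := by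
    have := hbd (2 ^ J₀) (one_le_pow₀ (by norm_num)) ∅ (by simp)
    simpa using this
  obtain ⟨C, hC, hE⟩ := exc_bound ε (min c1 (1 / 3)) C1 _ J₀ hε hm (min_le_right _ _) hC1 hB0 hJ
    (hbd (2 ^ J₀) (one_le_pow₀ (by norm_num))) (by
    intro X F hX hF
    refine (h X F hX hF).trans ?_
    refine mul_le_mul_of_nonneg_left ?_ (by linarith)
    exact Real.rpow_le_rpow_of_exponent_le hX (by linarith [min_le_left c1 (1 / 3)]))
  refine ⟨min c1 (1 / 3) / 2, 32 * C, by positivity, fun X hX => ?_⟩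
  have hX0 : 0 < X := by linarith
  have hfin : (Tri X).Finite := (finite_of_bound (Tri X) (CA * X ^ (1 : ℝ) * Real.sqrt (X * X))
    (fun F hF => hbd X (by linarith) F (fun v hv => by
      obtain ⟨h1, h2, h3, h4⟩ := hF hv
      exact ⟨⟨h1, h2, h3⟩, h4⟩))).1
  have hlow : X ^ (2 / 3 : ℝ) / 32 ≤ ((Tri X).ncard : ℝ) := by
    have h1 : {t : ℕ × ℕ | 0 < t.1 ∧ 0 < t.2 ∧ Nat.Coprime t.1 t.2 ∧
        ((∏ p ∈ (t.1 * t.2 * (t.1 + t.2)).primeFactors, p : ℕ) : ℝ) ≤ X ∧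
        Real.log ((t.1 + t.2 : ℕ) : ℝ) ≤ Real.log X} ⊆ Tri X := by
      rintro t ⟨h1, h2, h3, h4, -⟩
      exact ⟨h1, h2, h3, h4⟩
    have h2 := low X (Real.log X) hX le_rfl (hfin.subset h1)
    refine h2.trans ?_
    exact_mod_cast Set.ncard_le_ncard h1 hfin
  have hexc : ((Exc (1 / 3 + ε) X).ncard : ℝ) ≤ C * X ^ (2 / 3 - min c1 (1 / 3) / 2) :=
    (finite_of_bound (Exc (1 / 3 + ε) X) _ (fun F hF => hE X F hX (fun v hv => by
      obtain ⟨⟨h1, h2, h3, h4⟩, h5⟩ := hF hv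
      exact ⟨⟨h1, h2, h3⟩, h4, h5⟩))).2
  have hpos : 0 ≤ X ^ (2 / 3 - min c1 (1 / 3) / 2) := by positivity
  refine ⟨hfin, hlow, ?_, ?_⟩
  · refine hexc.trans ?_
    nlinarith [mul_nonneg hC hpos]
  · refine hexc.trans ?_
    have e : X ^ (2 / 3 - min c1 (1 / 3) / 2) =
        X ^ (-(min c1 (1 / 3) / 2)) * X ^ (2 / 3 : ℝ) := by
      rw [← Real.rpow_add hX0]; ring_nf
    rw [e]
    have h1 : 0 ≤ X ^ (-(min c1 (1 / 3) / 2)) := by positivity
    have h2 : X ^ (2 / 3 : ℝ) ≤ 32 * ((Tri X).ncard : ℝ) := by linarith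
    calc C * (X ^ (-(min c1 (1 / 3) / 2)) * X ^ (2 / 3 : ℝ))
        ≤ C * (X ^ (-(min c1 (1 / 3) / 2)) * (32 * ((Tri X).ncard : ℝ))) :=
          mul_le_mul_of_nonneg_left (mul_le_mul_of_nonneg_left h2 h1) hC
      _ = 32 * C * X ^ (-(min c1 (1 / 3) / 2)) * ((Tri X).ncard : ℝ) := by ring

end Pool.MED
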